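import Pool.Agent.Helper27.UC.Goals

set_option autoImplicit false

noncomputable section

namespace Pool.Agent.Helper71.UC.FAM

open Polynomial Module Pool.Agent.Helper27.UC

variable {K : Type} [Field K]

theorem ext_cof (f g : R2 K) (h : ∀ i j, cof i j f = cof i j g) : f = g := by
  refine Polynomial.ext fun j => Polynomial.ext fun i => h i j

theorem cof_hc (a b k : ℕ) (f : R2 K) : cof a b (hc k f) = if a + b = k then cof a b f else 0 := by
  change cof a b (∑ j ∈ Finset.range (k + 1),
    Polynomial.monomial j (Polynomial.monomial (k - j) (cof (k - j) j f))) = _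
  have h1 : cof a b (∑ j ∈ Finset.range (k + 1),
      Polynomial.monomial j (Polynomial.monomial (k - j) (cof (k - j) j f))) =
      ∑ j ∈ Finset.range (k + 1), (if j = b then (if k - j = a then cof (k - j) j f else 0) else 0) := by
    unfold cof
    rw [Polynomial.finsetSum_coeff, Polynomial.finsetSum_coeff]
    refine Finset.sum_congr rfl fun j _ => ?_
    rw [Polynomial.coeff_monomial]
    split_ifs with h2 h3
    · rw [Polynomial.coeff_monomial, if_pos h3]
    · rw [Polynomial.coeff_monomial, if_neg h3]
    · simp
  rw [h1, Finset.sum_ite_eq']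
  by_cases hb : b ∈ Finset.range (k + 1)
  · rw [if_pos hb]
    rw [Finset.mem_range] at hb
    by_cases hk : a + b = k
    · have h3 : k - b = a := by omega
      rw [if_pos h3, if_pos hk, h3]
    · rw [if_neg hk, if_neg (by omega)]
  · rw [if_neg hb]
    rw [Finset.mem_range] at hb
    rw [if_neg (by omega)]

theorem hc_hc_ne (k l : ℕ) (h : k ≠ l) (f : R2 K) : hc k (hc l f) = 0 := by
  refine ext_cof _ _ fun i j => ?_
  rw [cof_hc, cof_hc]
  have h0 : cof i j (0 : R2 K) = 0 := by simp [cof]
  rw [h0]
  split_ifs with h1 h2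
  · exact absurd (h1.symm.trans h2) h
  · rfl
  · rfl

theorem hc_hc (k : ℕ) (f : R2 K) : hc k (hc k f) = hc k f := by
  refine ext_cof _ _ fun i j => ?_
  rw [cof_hc, cof_hc]
  split_ifs with h1
  · rfl
  · rfl

theorem hc_eq_zero (k : ℕ) (f : R2 K) : hc k f = 0 ↔ ∀ i j, i + j = k → cof i j f = 0 := by
  constructor
  · intro h i j hij
    have := cof_hc i j k f
    rw [h, if_pos hij] at this
    rw [← this]
    simp [cof]
  · intro h
    refine ext_cof _ _ fun i j => ?_
    rw [cof_hc]
    have h0 : cof i j (0 : R2 K) = 0 := by simp [cof]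
    rw [h0]
    split_ifs with h1
    · exact h i j h1
    · rfl

theorem step {V : Type} [AddCommGroup V] [Module K V] (U U' : Submodule K V) (P : V →ₗ[K] V)
    (hU : FiniteDimensional K U) (hle : U' ≤ U) (h : ∀ f ∈ U, (f ∈ U' ↔ P f = 0)) :
    ∃ (r : ℕ) (w : Fin r → V), r + finrank K U' = finrank K U ∧ (∀ i, w i ∈ U) ∧
      LinearIndependent K (fun i => P (w i)) := by
  let g : U →ₗ[K] V := P.comp U.subtype
  have hker : LinearMap.ker g = U'.comap U.subtype := by
    ext x
    rw [LinearMap.mem_ker, Submodule.mem_comap]
    exact (h x.1 x.2).symm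
  have hrn : finrank K (LinearMap.range g) + finrank K (LinearMap.ker g) = finrank K U :=
    LinearMap.finrank_range_add_finrank_ker g
  have hk : finrank K (LinearMap.ker g) = finrank K U' := by
    rw [hker]
    exact (Submodule.comapSubtypeEquivOfLe hle).finrank_eq
  rw [hk] at hrn
  let b : Basis (Fin (finrank K (LinearMap.range g))) K (LinearMap.range g) :=
    finBasis K (LinearMap.range g)
  have hlift : ∀ i, ∃ w : U, g w = (b i : V) := fun i => (b i).2
  choose w hw using hlift
  refine ⟨_, fun i => (w i : V), hrn, fun i => (w i).2, ?_⟩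
  have h4 : LinearIndependent K (fun i => (b i : V)) :=
    b.linearIndependent.map' (LinearMap.range g).subtype (Submodule.ker_subtype _)
  have h5 : (fun i => P (w i : V)) = fun i => (b i : V) := by
    funext i
    exact hw i
  rw [h5]
  exact h4

theorem join {V : Type} [AddCommGroup V] [Module K V] (P : V →ₗ[K] V) (n r : ℕ)
    (x : Fin n → V) (y : Fin r → V) (hx : LinearIndependent K x) (hy : LinearIndependent K y)
    (h1 : ∀ i, P (x i) = 0) (h2 : ∀ i, P (y i) = y i) :
    LinearIndependent K (Fin.append x y) := by
  have hdis : Disjoint (Submodule.span K (Set.range x)) (Submodule.span K (Set.range y)) := by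
    rw [Submodule.disjoint_def]
    intro z hz1 hz2
    have e1 : Submodule.span K (Set.range x) ≤ LinearMap.ker P := by
      rw [Submodule.span_le]
      rintro _ ⟨i, rfl⟩
      exact h1 i
    have e2 : Submodule.span K (Set.range y) ≤ LinearMap.ker (P - LinearMap.id) := by
      rw [Submodule.span_le]
      rintro _ ⟨i, rfl⟩
      change P (y i) - y i = 0
      rw [h2, sub_self]
    have e3 := LinearMap.mem_ker.mp (e1 hz1)
    have e4 : P z - z = 0 := LinearMap.mem_ker.mp (e2 hz2)
    rw [e3, zero_sub, neg_eq_zero] at e4
    exact e4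
  have hsum := LinearIndependent.sum_type hx hy hdis
  have := hsum.comp finSumFinEquiv.symm finSumFinEquiv.symm.injective
  have e : Fin.append x y = Sum.elim x y ∘ finSumFinEquiv.symm := by
    funext i
    refine Fin.addCases (fun i => ?_) (fun i => ?_) i
    · rw [Fin.append_left]
      simp
    · rw [Fin.append_right]
      simp
  rw [e]
  exact this

theorem t : S_FAM := by
  intro K _ W M hW
  induction M with
  | zero =>
    refine ⟨0, Fin.elim0, Fin.elim0, ?_, fun i => Fin.elim0 i, linearIndependent_empty_type⟩
    have h : W ⊓ Od 0 = W := by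
      refine inf_eq_left.mpr fun x _ => ?_
      intro i j hij
      exact absurd hij (Nat.not_lt_zero _)
    rw [h, zero_add]
  | succ M ih =>
    obtain ⟨n, v, t, h1, h2, h3⟩ := ih
    have hOd : ∀ f : R2 K, f ∈ Od M → (f ∈ Od (M + 1) ↔ hc M f = 0) := by
      intro f hf
      rw [hc_eq_zero]
      constructor
      · intro h i j hij
        exact h i j (by omega)
      · intro h i j hij
        rcases Nat.lt_or_ge (i + j) M with h4 | h4
        · exact hf i j h4
        · exact h i j (by omega)
    have hle : (W ⊓ Od (M + 1) : Submodule K (R2 K)) ≤ W ⊓ Od M := by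
      intro f hf
      refine ⟨hf.1, fun i j hij => hf.2 i j (by omega)⟩
    have hU : FiniteDimensional K (W ⊓ Od M : Submodule K (R2 K)) :=
      Submodule.finiteDimensional_of_le (inf_le_left : W ⊓ Od M ≤ W)
    obtain ⟨r, w, hr, hw, hind⟩ := step (W ⊓ Od M) (W ⊓ Od (M + 1)) (hc M) hU hle (by
      intro f hf
      rw [← hOd f hf.2]
      exact ⟨fun h => h.2, fun h => ⟨hf.1, h⟩⟩)
    refine ⟨n + r, Fin.append v w, Fin.append t (fun _ => M), ?_, ?_, ?_⟩
    · rw [← h1, ← hr]
      ring
    · intro i
      refine Fin.addCases (fun i => ?_) (fun i => ?_) i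
      · rw [Fin.append_left, Fin.append_left]
        exact ⟨(h2 i).1, (h2 i).2.1, Nat.lt_succ_of_lt (h2 i).2.2⟩
      · rw [Fin.append_right, Fin.append_right]
        exact ⟨(hw i).1, (hw i).2, Nat.lt_succ_self M⟩
    · have := join (hc M) n r (fun i => hc (t i) (v i)) (fun i => hc M (w i)) h3 hind
        (fun i => hc_hc_ne M (t i) (by have := (h2 i).2.2; omega) _) (fun i => hc_hc M _)
      have e : (fun i => hc (Fin.append t (fun _ => M) i) (Fin.append v w i)) =
          Fin.append (fun i => hc (t i) (v i)) (fun i => hc M (w i)) := by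
        funext i
        refine Fin.addCases (fun i => ?_) (fun i => ?_) i
        · rw [Fin.append_left, Fin.append_left, Fin.append_left]
        · rw [Fin.append_right, Fin.append_right, Fin.append_right]
      rw [e]
      exact this

end Pool.Agent.Helper71.UC.FAM
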